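import Pool.Agent.Helper56.NB.Defs

/-!
Base change of modules without uniform submodules along an existentially closed extension of
fields: variant of `Pool.Agent.H35SD.baseChange_noUnif` for sets of elements (block BCF).
-/

open scoped TensorProduct

namespace Pool.Agent.Helper56.NB

open Pool.Agent.H35SD Pool.Agent.H35SD.BC

universe u v

theorem baseChange_noUnif_sets {k₀ k Λ₀ Q₀ : Type u} [Field k₀] [Field k] [Algebra k₀ k]
    (hEC : EC k₀ k) [Ring Λ₀] [Algebra k₀ Λ₀] [AddCommGroup Q₀] [Module Λ₀ Q₀] [Nontrivial Q₀]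
    (hQ : NoUnif Λ₀ Q₀) :
    ∃ (Q : Type u) (_ : AddCommGroup Q) (_ : Module (k ⊗[k₀] Λ₀) Q), Nontrivial Q ∧
      NoUnif (k ⊗[k₀] Λ₀) Q ∧
      ∀ B : Set Λ₀, (∀ q : Q₀, q ≠ 0 → ∃ b ∈ B, b • q ≠ 0) →
        ∀ q : Q, q ≠ 0 → ∃ b ∈ B, ((1 : k) ⊗ₜ[k₀] b) • q ≠ 0 := by
  classical
  let _ : Module k₀ Q₀ := Module.compHom Q₀ (algebraMap k₀ Λ₀)
  have : IsScalarTower k₀ Λ₀ Q₀ := by
    refine ⟨fun c l q => ?_⟩
    change (c • l) • q = (algebraMap k₀ Λ₀ c) • (l • q)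
    rw [Algebra.smul_def, mul_smul]
  let _ : Module (k ⊗[k₀] Λ₀) (k ⊗[k₀] Q₀) := BC.mod
  refine ⟨k ⊗[k₀] Q₀, inferInstance, BC.mod, ?_, ?_, ?_⟩
  · obtain ⟨q, hq⟩ := exists_ne (0 : Q₀)
    refine ⟨⟨(1 : k) ⊗ₜ[k₀] q, 0, fun h => ?_⟩⟩
    obtain ⟨f, hf⟩ : ∃ f : Q₀ →ₗ[k₀] k₀, f q ≠ 0 := by
      by_contra! hcon
      exact hq ((Module.forall_dual_apply_eq_zero_iff k₀ q).mp hcon)
    have h1 := congrArg (cr f) h
    rw [cr_tmul, map_zero] at h1
    exact (smul_ne_zero hf one_ne_zero) h1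
  · intro V hV
    -- an element of minimal length
    obtain ⟨x₁, hx₁V, hx₁⟩ := (Submodule.ne_bot_iff V).mp hV
    have hex : ∃ n, ∃ x ∈ V, x ≠ 0 ∧ HasLen n x := by
      obtain ⟨n, hn⟩ := exists_len x₁
      exact ⟨n, x₁, hx₁V, hx₁, hn⟩
    obtain ⟨x, hxV, hx, hlen⟩ := Nat.find_spec hex
    have hmin : ∀ y ∈ V, y ≠ 0 → ∀ m, HasLen m y → Nat.find hex ≤ m := fun y hy hy0 m hm =>
      Nat.find_min' hex ⟨y, hy, hy0, hm⟩
    generalize Nat.find hex = N at hlen hmin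
    obtain ⟨a, w, hxe⟩ := hlen
    obtain ⟨m, rfl⟩ : ∃ m, N = m + 1 := by
      cases N with
      | zero => exact absurd (by rw [hxe]; simp) hx
      | succ m => exact ⟨m, rfl⟩
    have hact : ∀ l : Λ₀, ((1 : k) ⊗ₜ[k₀] l) • x = ∑ i, a i ⊗ₜ[k₀] (l • w i) := by
      intro l
      change BC.act ((1 : k) ⊗ₜ[k₀] l) x = _
      rw [hxe, map_sum]
      simp only [BC.act_tmul, one_mul]
    -- Fact A
    have factA : ∀ q : Fin (m + 1) → Q₀, ∑ i, a i ⊗ₜ[k₀] q i = 0 → ∀ i, q i = 0 := by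
      intro q hq0 j
      by_contra hj
      obtain ⟨f, hf⟩ : ∃ f : Q₀ →ₗ[k₀] k₀, f (q j) ≠ 0 := by
        by_contra! hcon
        exact hj ((Module.forall_dual_apply_eq_zero_iff k₀ (q j)).mp hcon)
      have h1 := congrArg (cr f) hq0
      simp only [map_sum, cr_tmul, map_zero] at h1
      have h2 := red_left a w (fun i => f (q i)) j hf h1
      rw [← hxe] at h2
      have := hmin x hxV hx m h2
      omega
    -- Fact B
    have factB : ∀ (l : Λ₀) (c : Fin (m + 1) → k₀), (∃ j, c j ≠ 0) →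
        l • (∑ i, c i • w i) = 0 → ∀ i, l • w i = 0 := by
      rintro l c ⟨j, hj⟩ hl
      have h1 : ∑ i, c i • (l • w i) = 0 := by
        rw [← hl, Finset.smul_sum]
        exact Finset.sum_congr rfl fun i _ => smul_comm _ _ _
      have h2 := red_right a (fun i => l • w i) c j hj h1
      apply factA
      by_contra h3
      have h4 : ((1 : k) ⊗ₜ[k₀] l) • x ∈ V := V.smul_mem _ hxV
      rw [hact] at h4
      have := hmin _ h4 h3 m h2
      omega
    -- the element `w 0`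
    have hw0 : w 0 ≠ 0 := by
      intro h0
      have h1 := red_right a w (Pi.single (0 : Fin (m + 1)) (1 : k₀)) 0 (by simp) (by
        rw [Finset.sum_eq_single 0]
        · rw [h0, smul_zero]
        · intro b _ hb
          rw [Pi.single_eq_of_ne hb, zero_smul]
        · intro h; exact absurd (Finset.mem_univ _) h)
      rw [← hxe] at h1
      have := hmin x hxV hx m h1
      omega
    obtain ⟨V₁, V₂, hV₁, hV₂, hV₁0, hV₂0, hdis⟩ := hQ (Submodule.span Λ₀ {w 0}) (by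
      rw [Ne, Submodule.span_singleton_eq_bot]; exact hw0)
    obtain ⟨y₁, hy₁, hy₁0⟩ := (Submodule.ne_bot_iff V₁).mp hV₁0
    obtain ⟨y₂, hy₂, hy₂0⟩ := (Submodule.ne_bot_iff V₂).mp hV₂0
    obtain ⟨l₁, rfl⟩ := Submodule.mem_span_singleton.mp (hV₁ hy₁)
    obtain ⟨l₂, rfl⟩ := Submodule.mem_span_singleton.mp (hV₂ hy₂)
    have hne : ∀ l : Λ₀, l • w 0 ≠ 0 → ((1 : k) ⊗ₜ[k₀] l) • x ≠ 0 := by
      intro l hl h0
      rw [hact] at h0
      exact hl (factA _ h0 0)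
    refine ⟨Submodule.span _ {((1 : k) ⊗ₜ[k₀] l₁) • x}, Submodule.span _ {((1 : k) ⊗ₜ[k₀] l₂) • x},
      ?_, ?_, ?_, ?_, ?_⟩
    · rw [Submodule.span_singleton_le_iff_mem]; exact V.smul_mem _ hxV
    · rw [Submodule.span_singleton_le_iff_mem]; exact V.smul_mem _ hxV
    · rw [Ne, Submodule.span_singleton_eq_bot]; exact hne l₁ hy₁0
    · rw [Ne, Submodule.span_singleton_eq_bot]; exact hne l₂ hy₂0
    rw [Submodule.eq_bot_iff]
    rintro y ⟨hy1, hy2⟩
    by_contra hy0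
    obtain ⟨α, hα⟩ := Submodule.mem_span_singleton.mp hy1
    obtain ⟨β, hβ⟩ := Submodule.mem_span_singleton.mp hy2
    obtain ⟨S₁, hS₁⟩ := TensorProduct.exists_finset α
    obtain ⟨S₂, hS₂⟩ := TensorProduct.exists_finset β
    -- the finite set of all elements of `k` which occur
    let F : Set k := ((S₁.image Prod.fst ∪ S₂.image Prod.fst ∪ Finset.univ.image a : Finset k) :
      Set k)
    have hF : F.Finite := Finset.finite_toSet _
    set A : Subalgebra k₀ k := Algebra.adjoin k₀ F with hA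
    have hFA : F ⊆ A := Algebra.subset_adjoin
    have hA1 : ∀ s ∈ S₁, s.1 ∈ A := fun s hs => hFA (by
      simp only [F, Finset.coe_union, Set.mem_union, Finset.mem_coe]
      exact Or.inl (Or.inl (Finset.mem_image_of_mem _ hs)))
    have hA2 : ∀ s ∈ S₂, s.1 ∈ A := fun s hs => hFA (by
      simp only [F, Finset.coe_union, Set.mem_union, Finset.mem_coe]
      exact Or.inl (Or.inr (Finset.mem_image_of_mem _ hs)))
    have hA3 : ∀ i, a i ∈ A := fun i => hFA (by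
      simp only [F, Finset.coe_union, Set.mem_union, Finset.mem_coe]
      exact Or.inr (Finset.mem_image_of_mem _ (Finset.mem_univ i)))
    have e1 : y = BC.act (∑ s ∈ S₁, s.1 ⊗ₜ[k₀] s.2) (∑ i, a i ⊗ₜ[k₀] (l₁ • w i)) := by
      rw [← hS₁, ← hact]; exact hα.symm
    have e2 : y = BC.act (∑ s ∈ S₂, s.1 ⊗ₜ[k₀] s.2) (∑ i, a i ⊗ₜ[k₀] (l₂ • w i)) := by
      rw [← hS₂, ← hact]; exact hβ.symm
    obtain ⟨f, hf⟩ := exists_cr y hy0
    have hmem : cr f y ∈ A := by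
      rw [e1]; exact cr_mem f A S₁ hA1 a hA3 _
    obtain ⟨ρ, hρ⟩ := hEC F hF ⟨cr f y, hmem⟩ (by
      intro h
      exact hf (congrArg Subtype.val h))
    obtain ⟨g, hg⟩ := LinearMap.exists_extend (p := Subalgebra.toSubmodule A) ρ.toLinearMap
    have hg' : ∀ z (hz : z ∈ A), g z = ρ ⟨z, hz⟩ := fun z hz =>
      LinearMap.congr_fun hg (⟨z, hz⟩ : A)
    have hgm : ∀ b ∈ A, ∀ c ∈ A, g (b * c) = g b * g c := by
      intro b hb c hc
      rw [hg' b hb, hg' c hc, hg' _ (A.mul_mem hb hc), ← map_mul]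
      rfl
    have hcl : cl g y ≠ 0 := by
      intro h0
      have h1 := cr_cl f g y
      rw [h0, map_zero, hg' _ hmem] at h1
      exact hρ h1.symm
    have hsum : ∀ l : Λ₀, cl g (∑ i, a i ⊗ₜ[k₀] (l • w i)) = l • ∑ i, g (a i) • w i := by
      intro l
      rw [map_sum, Finset.smul_sum]
      exact Finset.sum_congr rfl fun i _ => by rw [cl_tmul, smul_comm]
    have f1 : cl g y = (spec g (∑ s ∈ S₁, s.1 ⊗ₜ[k₀] s.2) * l₁) • ∑ i, g (a i) • w i := by
      conv_lhs => rw [e1]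
      rw [cl_spec g A hgm S₁ hA1 a hA3, hsum, smul_smul]
    have f2 : cl g y = (spec g (∑ s ∈ S₂, s.1 ⊗ₜ[k₀] s.2) * l₂) • ∑ i, g (a i) • w i := by
      conv_lhs => rw [e2]
      rw [cl_spec g A hgm S₂ hA2 a hA3, hsum, smul_smul]
    set γ₁ := spec g (∑ s ∈ S₁, s.1 ⊗ₜ[k₀] s.2) * l₁ with hγ₁
    set γ₂ := spec g (∑ s ∈ S₂, s.1 ⊗ₜ[k₀] s.2) * l₂ with hγ₂
    have hj : ∃ j, g (a j) ≠ 0 := by
      by_contra! hcon
      apply hcl
      rw [f1]
      simp [hcon]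
    have h1 := factB (γ₁ - γ₂) (fun i => g (a i)) hj (by rw [sub_smul, ← f1, ← f2, sub_self]) 0
    rw [sub_smul, sub_eq_zero] at h1
    have h2 : γ₁ • w 0 ∈ V₁ ⊓ V₂ := by
      refine ⟨?_, ?_⟩
      · rw [hγ₁, mul_smul]; exact V₁.smul_mem _ hy₁
      · rw [h1, hγ₂, mul_smul]; exact V₂.smul_mem _ hy₂
    rw [hdis, Submodule.mem_bot] at h2
    have h3 := factB γ₁ (Pi.single (0 : Fin (m + 1)) (1 : k₀)) ⟨0, by simp⟩ (by
      rw [Finset.sum_eq_single 0]
      · rw [Pi.single_eq_same, one_smul, h2]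
      · intro b _ hb
        rw [Pi.single_eq_of_ne hb, zero_smul]
      · intro h; exact absurd (Finset.mem_univ _) h)
    apply hcl
    rw [f1, Finset.smul_sum]
    refine Finset.sum_eq_zero fun i _ => ?_
    rw [smul_comm, h3, smul_zero]
  · intro B hB q hq
    obtain ⟨f, hf⟩ := exists_cl q hq
    obtain ⟨b, hbB, hb⟩ := hB _ hf
    refine ⟨b, hbB, fun h0 => hb ?_⟩
    rw [← cl_act]
    change BC.act ((1 : k) ⊗ₜ[k₀] b) q = 0 at h0
    rw [h0, map_zero]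

end Pool.Agent.Helper56.NB
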