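import Pool.Agent.Helper44.NB.BCN1
import Pool.Agent.Helper19.NB.ECP
import Pool.Agent.Helper46.NB.PO

/-!
Base change of modules without uniform submodules along a good subring of a commutative
Noetherian ring (block BCN).
-/

open scoped TensorProduct

namespace Pool.Agent.Helper56.NB

open Pool.Agent.H35SD

universe u v

theorem baseChange_noUnif_noeth_of {C : Type u} [CommRing C] [IsNoetherianRing C]
    {C₀ : Subring C} (hC : GoodSub C₀) (hnoeth : IsNoetherianRing C₀)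
    (hmem : ∀ (I : Ideal C₀) (c : C₀), algebraMap C₀ C c ∈ I.map (algebraMap C₀ C) → c ∈ I)
    (hprime : ∀ p : Ideal C₀, p.IsPrime → (p.map (algebraMap C₀ C)).IsPrime) {Λ₀ V₀ : Type u} [Ring Λ₀] [Algebra C₀ Λ₀] [AddCommGroup V₀] [Module Λ₀ V₀]
    [Nontrivial V₀] (hV : NoUnif Λ₀ V₀) :
    ∃ (Q : Type u) (_ : AddCommGroup Q) (_ : Module (C ⊗[C₀] Λ₀) Q), Nontrivial Q ∧
      NoUnif (C ⊗[C₀] Λ₀) Q ∧
      ∀ B : Set Λ₀, (∀ q : V₀, q ≠ 0 → ∃ b ∈ B, b • q ≠ 0) →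
        ∀ q : Q, q ≠ 0 → ∃ b ∈ B, ((1 : C) ⊗ₜ[C₀] b) • q ≠ 0 := by
  have _ : IsNoetherianRing C₀ := hnoeth
  obtain ⟨p, W, hp, hW, hpW, htf⟩ := exists_prime_part (C₀ := C₀) (Λ₀ := Λ₀) (V₀ := V₀)
  have hq := hprime p hp
  obtain ⟨K, instK, π, hker, hfrac⟩ : ∃ (K : Type u) (_ : Field K) (π : C →+* K),
      RingHom.ker π = p.map (algebraMap C₀ C) ∧ ∀ x : K, ∃ a b : C, π b ≠ 0 ∧ x = π a / π b := by
    refine ⟨FractionRing (C ⧸ p.map (algebraMap C₀ C)), inferInstance,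
      (algebraMap (C ⧸ p.map (algebraMap C₀ C)) _).comp (Ideal.Quotient.mk _), ?_, ?_⟩
    · rw [RingHom.ker_comp_of_injective _ (IsFractionRing.injective _ _), Ideal.mk_ker]
    · intro x
      obtain ⟨a, b, hb, hx⟩ := IsFractionRing.div_surjective (A := C ⧸ p.map (algebraMap C₀ C)) x
      obtain ⟨a, rfl⟩ := Ideal.Quotient.mk_surjective a
      obtain ⟨b, rfl⟩ := Ideal.Quotient.mk_surjective b
      refine ⟨a, b, ?_, hx.symm⟩
      intro h0
      apply nonZeroDivisors.ne_zero hb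
      apply IsFractionRing.injective (C ⧸ p.map (algebraMap C₀ C))
        (FractionRing (C ⧸ p.map (algebraMap C₀ C)))
      rw [map_zero]
      exact h0
  have hEC := hC.ec p hp K π hker hfrac
  let π₀ : C₀ →+* K := π.comp (algebraMap C₀ C)
  let K₀ : Subfield K := Subfield.closure (Set.range π₀)
  change EC K₀ K at hEC
  let ρ : C₀ →+* K₀ := π₀.codRestrict K₀ fun c => Subfield.subset_closure ⟨c, rfl⟩
  let algK₀ : Algebra C₀ K₀ := ρ.toAlgebra
  let algCK : Algebra C K := π.toAlgebra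
  let algC₀K : Algebra C₀ K := π₀.toAlgebra
  have t1 : IsScalarTower C₀ K₀ K := IsScalarTower.of_algebraMap_eq fun c => rfl
  have t2 : IsScalarTower C₀ C K := IsScalarTower.of_algebraMap_eq fun c => rfl
  have hρ : ∀ c : C₀, ((algebraMap C₀ K₀ c : K₀) : K) = π (algebraMap C₀ C c) := fun c => rfl
  have hker₀ : ∀ c : C₀, algebraMap C₀ K₀ c = 0 ↔ c ∈ p := by
    intro c
    rw [← Subtype.val_injective.eq_iff, hρ]
    change π (algebraMap C₀ C c) = 0 ↔ c ∈ p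
    rw [← RingHom.mem_ker, hker]
    exact ⟨hmem p c, fun h => Ideal.mem_map_of_mem _ h⟩
  have hfrac₀ : ∀ x : K₀, ∃ a b : C₀,
      algebraMap C₀ K₀ b ≠ 0 ∧ x = algebraMap C₀ K₀ a / algebraMap C₀ K₀ b := by
    rintro ⟨x, hx⟩
    obtain ⟨y, hy, z, hz, rfl⟩ := Subfield.mem_closure_iff.mp hx
    rw [← RingHom.coe_range, Subring.closure_eq] at hy hz
    obtain ⟨a, rfl⟩ := hy
    obtain ⟨b, rfl⟩ := hz
    by_cases hb : π₀ b = 0
    · refine ⟨0, 1, by simp, ?_⟩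
      apply Subtype.ext
      simp [hb]
    · refine ⟨a, b, ?_, ?_⟩
      · intro h0
        exact hb (congrArg Subtype.val h0)
      · apply Subtype.ext
        rfl
  have _ : Nontrivial W := Submodule.nontrivial_iff_ne_bot.mpr hW
  obtain ⟨Q₀, i1, i2, hQ₀, hNU₀, hB₀⟩ := BCN.step1 (K₀ := K₀) noUnif_extend hfrac₀ (W := W)
    (fun c hc w => Subtype.ext (hpW c ((hker₀ c).mp hc) w w.2))
    (fun c hc w hw => Subtype.ext (htf c (fun h => hc ((hker₀ c).mpr h)) w w.2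
      (congrArg Subtype.val hw))) (BCN.noUnif_sub hV W)
  obtain ⟨Q, i3, i4, hQ, hNU, hB⟩ := baseChange_noUnif_sets hEC hNU₀
  obtain ⟨i5, hNU', hb⟩ := BCN.step2 (C := C) noUnif_restrict hfrac hNU
  refine ⟨Q, i3, i5, hQ, hNU', ?_⟩
  intro B hBB q hq
  have hw : ∀ w : W, w ≠ 0 → ∃ b ∈ B, b • w ≠ 0 := by
    intro w hw
    obtain ⟨b, hbB, hbw⟩ := hBB w (fun h => hw (Subtype.ext h))
    exact ⟨b, hbB, fun h => hbw (congrArg Subtype.val h)⟩
  obtain ⟨_, ⟨b, hbB, rfl⟩, hbq⟩ := hB _ (hB₀ B hw) q hq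
  refine ⟨b, hbB, ?_⟩
  rw [hb]
  exact hbq

end Pool.Agent.Helper56.NB
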