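import Pool.Agent.Helper44.NB.BCF

/-!
Base change of modules without uniform submodules over an algebra over a commutative ring:
auxiliary results (block BCN).
-/

open scoped TensorProduct

namespace Pool.Agent.Helper56.NB

open Pool.Agent.H35SD

universe u v

namespace BCN

/-- Common denominators in `K ⊗ M`. -/
theorem exists_denom {R K M : Type*} [CommRing R] [Field K] [Algebra R K] [AddCommGroup M]
    [Module R M]
    (hfrac : ∀ x : K, ∃ a b : R, algebraMap R K b ≠ 0 ∧ x = algebraMap R K a / algebraMap R K b)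
    (t : K ⊗[R] M) :
    ∃ c : R, algebraMap R K c ≠ 0 ∧ ∃ m : M, algebraMap R K c • t = (1 : K) ⊗ₜ[R] m := by
  induction t using TensorProduct.induction_on with
  | zero => exact ⟨1, by simp, 0, by simp⟩
  | tmul x m =>
    obtain ⟨a, b, hb, rfl⟩ := hfrac x
    refine ⟨b, hb, a • m, ?_⟩
    rw [TensorProduct.smul_tmul', smul_eq_mul, mul_div_cancel₀ _ hb, ← TensorProduct.smul_tmul,
      Algebra.smul_def, mul_one]
  | add x y hx hy =>
    obtain ⟨c, hc, m, h1⟩ := hx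
    obtain ⟨d, hd, n, h2⟩ := hy
    refine ⟨c * d, by rw [map_mul]; exact mul_ne_zero hc hd, d • m + c • n, ?_⟩
    have e : ∀ (r : R) (n : M), (1 : K) ⊗ₜ[R] (r • n) = algebraMap R K r • ((1 : K) ⊗ₜ[R] n) := by
      intro r n
      rw [← TensorProduct.smul_tmul, TensorProduct.smul_tmul', Algebra.smul_def, smul_eq_mul]
    rw [TensorProduct.tmul_add, e, e, ← h1, ← h2, map_mul, smul_add, smul_smul, smul_smul,
      mul_comm (algebraMap R K d)]

/-- The embedding of a torsion-free module in its localization. -/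
theorem mk_injective {C₀ K₀ W : Type*} [CommRing C₀] [Field K₀] [Algebra C₀ K₀]
    [AddCommGroup W] [Module C₀ W]
    (hfrac : ∀ x : K₀, ∃ a b : C₀,
      algebraMap C₀ K₀ b ≠ 0 ∧ x = algebraMap C₀ K₀ a / algebraMap C₀ K₀ b)
    (hpW : ∀ c, algebraMap C₀ K₀ c = 0 → ∀ w : W, c • w = 0)
    (htf : ∀ c, algebraMap C₀ K₀ c ≠ 0 → ∀ w : W, c • w = 0 → w = 0) (w : W)
    (hw : (1 : K₀) ⊗ₜ[C₀] w = 0) : w = 0 := by
  let p : Ideal C₀ := RingHom.ker (algebraMap C₀ K₀)
  have hT : Module.IsTorsionBySet C₀ W p := by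
    intro w c
    exact hpW c.1 c.2 w
  let _ : Module (C₀ ⧸ p) W := hT.module
  have _ : IsScalarTower C₀ (C₀ ⧸ p) W := hT.isScalarTower
  let _ : Algebra (C₀ ⧸ p) K₀ := (RingHom.kerLift (algebraMap C₀ K₀)).toAlgebra
  have hmk : ∀ c : C₀, algebraMap (C₀ ⧸ p) K₀ (Ideal.Quotient.mk p c) = algebraMap C₀ K₀ c :=
    fun c => rfl
  have _ : IsScalarTower C₀ (C₀ ⧸ p) K₀ := IsScalarTower.of_algebraMap_eq fun c => rfl
  have hinj : Function.Injective (algebraMap (C₀ ⧸ p) K₀) :=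
    RingHom.kerLift_injective (algebraMap C₀ K₀)
  have _ : FaithfulSMul (C₀ ⧸ p) K₀ := (faithfulSMul_iff_algebraMap_injective _ _).mpr hinj
  have _ : IsFractionRing (C₀ ⧸ p) K₀ := by
    apply IsFractionRing.of_field
    intro z
    obtain ⟨a, b, _, rfl⟩ := hfrac z
    exact ⟨Ideal.Quotient.mk p a, Ideal.Quotient.mk p b, rfl⟩
  have h1 : (1 : K₀) ⊗ₜ[C₀ ⧸ p] w = 0 := by
    have h2 := congrArg (TensorProduct.mapOfCompatibleSMul (C₀ ⧸ p) C₀ C₀ K₀ W) hw
    rw [map_zero] at h2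
    exact h2
  have h3 := (IsLocalizedModule.eq_zero_iff (nonZeroDivisors (C₀ ⧸ p))
    (TensorProduct.mk (C₀ ⧸ p) K₀ W 1) (m := w)).mp h1
  obtain ⟨c, hc⟩ := h3
  obtain ⟨c', hc'⟩ := Ideal.Quotient.mk_surjective (c : C₀ ⧸ p)
  have h4 : c' • w = 0 := by
    have h5 : (c : C₀ ⧸ p) • w = 0 := hc
    rw [← hc', ← Ideal.Quotient.algebraMap_eq, algebraMap_smul] at h5
    exact h5
  refine htf c' ?_ w h4
  rw [← hmk, hc']
  intro h0
  have hc0 : (c : C₀ ⧸ p) ≠ 0 := by
    have := c.2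
    have _ : Nontrivial (C₀ ⧸ p) := Ideal.Quotient.nontrivial_iff.mpr (RingHom.ker_ne_top _)
    exact nonZeroDivisors.ne_zero this
  exact hc0 (hinj (by rw [h0, map_zero]))

theorem noUnif_sub {Λ V : Type u} [Ring Λ] [AddCommGroup V] [Module Λ V] (hV : NoUnif Λ V)
    (W : Submodule Λ V) : NoUnif Λ W := by
  intro U hU
  obtain ⟨V₁, V₂, h1, h2, h3, h4, h5⟩ := hV (U.map W.subtype) (by
    intro h
    apply hU
    rw [← Submodule.map_bot W.subtype] at h
    exact Submodule.map_injective_of_injective W.subtype_injective h)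
  have key : ∀ V' : Submodule Λ V, V' ≤ U.map W.subtype → V' ≠ ⊥ →
      V'.comap W.subtype ≤ U ∧ V'.comap W.subtype ≠ ⊥ := by
    intro V' hV' h0
    constructor
    · intro x hx
      obtain ⟨y, hy, hxy⟩ := hV' hx
      have : y = x := Subtype.ext hxy
      rwa [← this]
    · obtain ⟨x, hx, hx0⟩ := (Submodule.ne_bot_iff V').mp h0
      obtain ⟨y, hy, rfl⟩ := hV' hx
      rw [Submodule.ne_bot_iff]
      exact ⟨y, hx, fun h => hx0 (by rw [h, map_zero])⟩
  refine ⟨V₁.comap W.subtype, V₂.comap W.subtype, (key V₁ h1 h3).1, (key V₂ h2 h4).1,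
    (key V₁ h1 h3).2, (key V₂ h2 h4).2, ?_⟩
  rw [← Submodule.comap_inf, h5]
  rw [eq_bot_iff]
  intro x hx
  exact Subtype.ext hx

end BCN

end Pool.Agent.Helper56.NB
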