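import Pool.Agent.Helper44.NB.BCN0

/-!
Base change of modules without uniform submodules over an algebra over a commutative ring:
from a prime ideal to the fraction field and further to a field extension (block BCN).
-/

open scoped TensorProduct

namespace Pool.Agent.Helper56.NB

open Pool.Agent.H35SD

universe u v

namespace BCN

/-- Statement of the Ore restriction (block PO). -/
def OreRestrict : Prop :=
  ∀ {Λ Λ' M : Type u} [Ring Λ] [Ring Λ'] (φ : Λ →+* Λ') [AddCommGroup M]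
    [Module Λ' M] (D : Set Λ) (_ : ∀ d ∈ D, ∀ d' ∈ D, d * d' ∈ D)
    (_ : ∀ d ∈ D, ∀ r : Λ', φ d * r = r * φ d)
    (_ : ∀ d ∈ D, ∀ m : M, φ d • m = 0 → m = 0)
    (_ : ∀ r : Λ', ∃ d ∈ D, ∃ l : Λ, φ d * r = φ l) (_ : NoUnif Λ' M),
    letI : Module Λ M := Module.compHom M φ
    NoUnif Λ M

/-- Statement of the Ore extension (block PO). -/
def OreExtend : Prop :=
  ∀ {Λ Λ' M W : Type u} [Ring Λ] [Ring Λ'] (φ : Λ →+* Λ') [AddCommGroup M]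
    [Module Λ' M] [AddCommGroup W] [Module Λ W] (ι : W →+ M)
    (_ : ∀ (l : Λ) (w : W), ι (l • w) = φ l • ι w) (_ : Function.Injective ι)
    (D : Set Λ) (_ : ∀ d ∈ D, ∀ d' ∈ D, d * d' ∈ D)
    (_ : ∀ d ∈ D, ∀ r : Λ', φ d * r = r * φ d)
    (_ : ∀ d ∈ D, ∀ m : M, φ d • m = 0 → m = 0)
    (_ : ∀ r : Λ', ∃ d ∈ D, ∃ l : Λ, φ d * r = φ l)
    (_ : ∀ m : M, ∃ d ∈ D, ∃ w : W, φ d • m = ι w) (_ : NoUnif Λ W),
    NoUnif Λ' M

/-- First step: from a torsion-free module over the ring `C₀` to its fraction field. -/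
theorem step1 (hE : OreExtend.{u}) {C₀ K₀ : Type u} [CommRing C₀] [Field K₀] [Algebra C₀ K₀]
    (hfrac : ∀ x : K₀, ∃ a b : C₀,
      algebraMap C₀ K₀ b ≠ 0 ∧ x = algebraMap C₀ K₀ a / algebraMap C₀ K₀ b)
    {Λ₀ W : Type u} [Ring Λ₀] [Algebra C₀ Λ₀] [AddCommGroup W] [Module Λ₀ W] [Nontrivial W]
    (hpW : ∀ c, algebraMap C₀ K₀ c = 0 → ∀ w : W, algebraMap C₀ Λ₀ c • w = 0)
    (htf : ∀ c, algebraMap C₀ K₀ c ≠ 0 → ∀ w : W, algebraMap C₀ Λ₀ c • w = 0 → w = 0)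
    (hW : NoUnif Λ₀ W) :
    ∃ (Q : Type u) (_ : AddCommGroup Q) (_ : Module (K₀ ⊗[C₀] Λ₀) Q), Nontrivial Q ∧
      NoUnif (K₀ ⊗[C₀] Λ₀) Q ∧
      ∀ B : Set Λ₀, (∀ q : W, q ≠ 0 → ∃ b ∈ B, b • q ≠ 0) →
        ∀ q : Q, q ≠ 0 → ∃ b ∈ (fun b => (1 : K₀) ⊗ₜ[C₀] b) '' B, b • q ≠ 0 := by
  let _ : Module C₀ W := cMod C₀ (S₀ := Λ₀) W
  have _ : IsScalarTower C₀ Λ₀ W := cMod_tower C₀ W
  let modQ : Module (K₀ ⊗[C₀] Λ₀) (K₀ ⊗[C₀] W) := bcMod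
  have hact : ∀ (l : Λ₀) (w : W), ((1 : K₀) ⊗ₜ[C₀] l) • ((1 : K₀) ⊗ₜ[C₀] w) =
      (1 : K₀) ⊗ₜ[C₀] (l • w) := by
    intro l w
    change act ((1 : K₀) ⊗ₜ[C₀] l) ((1 : K₀) ⊗ₜ[C₀] w) = _
    rw [act_tmul, one_mul]
  have hinj : ∀ w : W, (1 : K₀) ⊗ₜ[C₀] w = 0 → w = 0 :=
    mk_injective hfrac hpW htf
  -- the central elements
  have hcen1 : ∀ c : C₀, (1 : K₀) ⊗ₜ[C₀] (algebraMap C₀ Λ₀ c) =
      algebraMap K₀ (K₀ ⊗[C₀] Λ₀) (algebraMap C₀ K₀ c) := by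
    intro c
    rw [Algebra.TensorProduct.algebraMap_apply, Algebra.algebraMap_self_apply,
      Algebra.algebraMap_eq_smul_one, Algebra.algebraMap_eq_smul_one, TensorProduct.smul_tmul]
  have hact2 : ∀ (c : C₀) (x : K₀ ⊗[C₀] W),
      ((1 : K₀) ⊗ₜ[C₀] (algebraMap C₀ Λ₀ c) : K₀ ⊗[C₀] Λ₀) • x = algebraMap C₀ K₀ c • x := by
    intro c x
    change act ((1 : K₀) ⊗ₜ[C₀] (algebraMap C₀ Λ₀ c)) x = _
    induction x using TensorProduct.induction_on with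
    | zero => simp
    | tmul a q =>
      rw [act_tmul, one_mul, algebraMap_smul, ← TensorProduct.smul_tmul,
        TensorProduct.smul_tmul', Algebra.smul_def, smul_eq_mul]
    | add x y hx hy => rw [map_add, smul_add, hx, hy]
  have hden := exists_denom (M := W) hfrac
  have hdenL := exists_denom (M := Λ₀) hfrac
  refine ⟨K₀ ⊗[C₀] W, inferInstance, modQ, ?_, ?_, ?_⟩
  · obtain ⟨w, hw⟩ := exists_ne (0 : W)
    exact ⟨⟨(1 : K₀) ⊗ₜ[C₀] w, 0, fun h => hw (hinj w h)⟩⟩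
  · refine hE (Algebra.TensorProduct.includeRight : Λ₀ →ₐ[C₀] K₀ ⊗[C₀] Λ₀).toRingHom
      (ι := (TensorProduct.mk C₀ K₀ W 1).toAddMonoidHom) (fun l w => (hact l w).symm) ?_
      (algebraMap C₀ Λ₀ '' {c | algebraMap C₀ K₀ c ≠ 0}) ?_ ?_ ?_ ?_ ?_ hW
    · rw [injective_iff_map_eq_zero]
      exact hinj
    · rintro _ ⟨c, hc, rfl⟩ _ ⟨d, hd, rfl⟩
      refine ⟨c * d, ?_, map_mul _ _ _⟩
      change algebraMap C₀ K₀ (c * d) ≠ 0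
      rw [map_mul]
      exact mul_ne_zero hc hd
    · rintro _ ⟨c, hc, rfl⟩ r
      change (1 : K₀) ⊗ₜ[C₀] (algebraMap C₀ Λ₀ c) * r = r * (1 : K₀) ⊗ₜ[C₀] (algebraMap C₀ Λ₀ c)
      rw [hcen1]
      exact Algebra.commutes _ _
    · rintro _ ⟨c, hc, rfl⟩ m hm
      change ((1 : K₀) ⊗ₜ[C₀] (algebraMap C₀ Λ₀ c) : K₀ ⊗[C₀] Λ₀) • m = 0 at hm
      rw [hact2] at hm
      exact (smul_eq_zero.mp hm).resolve_left hc
    · intro r
      obtain ⟨c, hc, l, hl⟩ := hdenL r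
      refine ⟨algebraMap C₀ Λ₀ c, ⟨c, hc, rfl⟩, l, ?_⟩
      change (1 : K₀) ⊗ₜ[C₀] (algebraMap C₀ Λ₀ c) * r = (1 : K₀) ⊗ₜ[C₀] l
      rw [hcen1, ← hl, Algebra.smul_def]
    · intro m
      obtain ⟨c, hc, w, hw⟩ := hden m
      refine ⟨algebraMap C₀ Λ₀ c, ⟨c, hc, rfl⟩, w, ?_⟩
      change ((1 : K₀) ⊗ₜ[C₀] (algebraMap C₀ Λ₀ c) : K₀ ⊗[C₀] Λ₀) • m = (1 : K₀) ⊗ₜ[C₀] w
      rw [hact2, hw]
  · intro B hB q hq
    obtain ⟨c, hc, w, hw⟩ := hden q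
    have hw0 : w ≠ 0 := by
      rintro rfl
      rw [TensorProduct.tmul_zero] at hw
      exact hq ((smul_eq_zero.mp hw).resolve_left hc)
    obtain ⟨b, hb, hbw⟩ := hB w hw0
    refine ⟨_, ⟨b, hb, rfl⟩, fun h => hbw (hinj _ ?_)⟩
    change ((1 : K₀) ⊗ₜ[C₀] b : K₀ ⊗[C₀] Λ₀) • q = 0 at h
    rw [← hact, ← hw, ← hact2, smul_smul, hcen1, ← Algebra.commutes, mul_smul, h, smul_zero]

/-- Second step: restriction from the field `K` to the ring `C`. -/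
theorem step2 (hR : OreRestrict.{u}) {C₀ C K₀ K : Type u} [CommRing C₀] [CommRing C]
    [Algebra C₀ C] [Field K₀] [Field K] [Algebra C₀ K₀] [Algebra K₀ K] [Algebra C K]
    [Algebra C₀ K] [IsScalarTower C₀ K₀ K] [IsScalarTower C₀ C K]
    (hfrac : ∀ x : K, ∃ a b : C, algebraMap C K b ≠ 0 ∧ x = algebraMap C K a / algebraMap C K b)
    {Λ₀ Q : Type u} [Ring Λ₀] [Algebra C₀ Λ₀] [AddCommGroup Q]
    [Module (K ⊗[K₀] (K₀ ⊗[C₀] Λ₀)) Q] [Nontrivial Q] (hQ : NoUnif (K ⊗[K₀] (K₀ ⊗[C₀] Λ₀)) Q) :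
    ∃ (_ : Module (C ⊗[C₀] Λ₀) Q), NoUnif (C ⊗[C₀] Λ₀) Q ∧
      ∀ (b : Λ₀) (q : Q), ((1 : C) ⊗ₜ[C₀] b) • q =
        ((1 : K) ⊗ₜ[K₀] ((1 : K₀) ⊗ₜ[C₀] b)) • q := by
  let f : C →ₐ[C₀] K ⊗[K₀] (K₀ ⊗[C₀] Λ₀) :=
    ((Algebra.TensorProduct.includeLeft : K →ₐ[K₀] K ⊗[K₀] (K₀ ⊗[C₀] Λ₀)).restrictScalars
      C₀).comp (IsScalarTower.toAlgHom C₀ C K)
  let g : Λ₀ →ₐ[C₀] K ⊗[K₀] (K₀ ⊗[C₀] Λ₀) :=
    ((Algebra.TensorProduct.includeRight : K₀ ⊗[C₀] Λ₀ →ₐ[K₀] K ⊗[K₀] (K₀ ⊗[C₀] Λ₀)).restrictScalars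
      C₀).comp (Algebra.TensorProduct.includeRight : Λ₀ →ₐ[C₀] K₀ ⊗[C₀] Λ₀)
  have hf : ∀ c, f c = algebraMap K (K ⊗[K₀] (K₀ ⊗[C₀] Λ₀)) (algebraMap C K c) := fun c => rfl
  have hg : ∀ l, g l = (1 : K) ⊗ₜ[K₀] ((1 : K₀) ⊗ₜ[C₀] l) := fun l => rfl
  let φ : C ⊗[C₀] Λ₀ →ₐ[C₀] K ⊗[K₀] (K₀ ⊗[C₀] Λ₀) :=
    Algebra.TensorProduct.lift f g (fun c l => by
      rw [hf]; exact Algebra.commutes _ _)
  have hφ : ∀ (c : C) (l : Λ₀), φ (c ⊗ₜ[C₀] l) =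
      (algebraMap C K c) ⊗ₜ[K₀] ((1 : K₀) ⊗ₜ[C₀] l) := by
    intro c l
    change f c * g l = _
    rw [hf, hg, Algebra.TensorProduct.algebraMap_apply, Algebra.TensorProduct.tmul_mul_tmul]
    simp
  have hφ1 : ∀ c : C, φ (c ⊗ₜ[C₀] 1) =
      algebraMap K (K ⊗[K₀] (K₀ ⊗[C₀] Λ₀)) (algebraMap C K c) := by
    intro c
    rw [hφ, Algebra.TensorProduct.algebraMap_apply, Algebra.algebraMap_self_apply]
    rfl
  let modQ : Module (C ⊗[C₀] Λ₀) Q := Module.compHom Q φ.toRingHom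
  refine ⟨modQ, ?_, ?_⟩
  · refine hR φ.toRingHom ((fun c : C => c ⊗ₜ[C₀] (1 : Λ₀)) '' {c | algebraMap C K c ≠ 0})
      ?_ ?_ ?_ ?_ hQ
    · rintro _ ⟨c, hc, rfl⟩ _ ⟨d, hd, rfl⟩
      refine ⟨c * d, ?_, ?_⟩
      · change algebraMap C K (c * d) ≠ 0
        rw [map_mul]
        exact mul_ne_zero hc hd
      · change (c * d) ⊗ₜ[C₀] (1 : Λ₀) = (c ⊗ₜ[C₀] (1 : Λ₀)) * (d ⊗ₜ[C₀] (1 : Λ₀))
        rw [Algebra.TensorProduct.tmul_mul_tmul, one_mul]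
    · rintro _ ⟨c, hc, rfl⟩ r
      change φ (c ⊗ₜ[C₀] 1) * r = r * φ (c ⊗ₜ[C₀] 1)
      rw [hφ1]
      exact Algebra.commutes _ _
    · rintro _ ⟨c, hc, rfl⟩ m hm
      change φ (c ⊗ₜ[C₀] 1) • m = 0 at hm
      have h1 : algebraMap K (K ⊗[K₀] (K₀ ⊗[C₀] Λ₀)) (algebraMap C K c)⁻¹ •
          (φ (c ⊗ₜ[C₀] 1) • m) = m := by
        rw [smul_smul, hφ1, ← map_mul, inv_mul_cancel₀ hc, map_one, one_smul]
      rw [← h1, hm, smul_zero]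
    · intro r
      have key : ∀ r : K ⊗[K₀] (K₀ ⊗[C₀] Λ₀), ∃ c : C, algebraMap C K c ≠ 0 ∧
          ∃ l : C ⊗[C₀] Λ₀, φ (c ⊗ₜ[C₀] 1) * r = φ l := by
        intro r
        induction r using TensorProduct.induction_on with
        | zero => exact ⟨1, by simp, 0, by simp⟩
        | tmul x y =>
          induction y using TensorProduct.induction_on with
          | zero => exact ⟨1, by simp, 0, by simp⟩
          | tmul y l =>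
            have h1 : x ⊗ₜ[K₀] (y ⊗ₜ[C₀] l) = (x * algebraMap K₀ K y) ⊗ₜ[K₀]
                ((1 : K₀) ⊗ₜ[C₀] l) := by
              have h2 : y ⊗ₜ[C₀] l = y • ((1 : K₀) ⊗ₜ[C₀] l) := by
                rw [TensorProduct.smul_tmul', smul_eq_mul, mul_one]
              rw [h2, ← TensorProduct.smul_tmul, Algebra.smul_def, mul_comm]
            obtain ⟨a, b, hb, hab⟩ := hfrac (x * algebraMap K₀ K y)
            refine ⟨b, hb, a ⊗ₜ l, ?_⟩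
            rw [h1, hab, hφ1, hφ, ← Algebra.smul_def, TensorProduct.smul_tmul', smul_eq_mul,
              mul_div_cancel₀ _ hb]
          | add y z hy hz =>
            obtain ⟨c, hc, l, hl⟩ := hy
            obtain ⟨d, hd, m, hm⟩ := hz
            refine ⟨c * d, by rw [map_mul]; exact mul_ne_zero hc hd,
              (d ⊗ₜ 1) * l + (c ⊗ₜ 1) * m, ?_⟩
            rw [TensorProduct.tmul_add, mul_add, map_add, map_mul, map_mul, ← hl, ← hm,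
              ← mul_assoc, ← mul_assoc, ← map_mul, ← map_mul,
              Algebra.TensorProduct.tmul_mul_tmul, Algebra.TensorProduct.tmul_mul_tmul,
              one_mul, mul_comm d c]
        | add y z hy hz =>
          obtain ⟨c, hc, l, hl⟩ := hy
          obtain ⟨d, hd, m, hm⟩ := hz
          refine ⟨c * d, by rw [map_mul]; exact mul_ne_zero hc hd,
            (d ⊗ₜ 1) * l + (c ⊗ₜ 1) * m, ?_⟩
          rw [mul_add, map_add, map_mul, map_mul, ← hl, ← hm,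
            ← mul_assoc, ← mul_assoc, ← map_mul, ← map_mul,
            Algebra.TensorProduct.tmul_mul_tmul, Algebra.TensorProduct.tmul_mul_tmul,
            one_mul, mul_comm d c]
      obtain ⟨c, hc, l, hl⟩ := key r
      exact ⟨_, ⟨c, hc, rfl⟩, l, hl⟩
  · intro b q
    change φ ((1 : C) ⊗ₜ[C₀] b) • q = _
    rw [hφ, map_one]

end BCN

end Pool.Agent.Helper56.NB
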